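import Pool.Agent.J4H23.HR.Stm

/-! Project HR: GREEDY (colouring random graphs of small expected degeneracy). -/

set_option autoImplicit false

namespace Pool.Agent.J4H10.HR

open Finset Classical Pool.Agent.J4H23.HR

/-! ## Basics of `Ex` -/

section basics

variable {α : Type}

/-- the weight of a subset -/
noncomputable def wt (E : Finset α) (p : α → ℝ) (F : Finset α) : ℝ :=
  (∏ e ∈ F, p e) * ∏ e ∈ E \ F, (1 - p e)

theorem Ex_eq (E : Finset α) (p : α → ℝ) (f : Finset α → ℝ) :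
    Ex E p f = ∑ F ∈ E.powerset, wt E p F * f F := rfl

theorem wt_nonneg {E : Finset α} {p : α → ℝ} (hp : ∀ e ∈ E, 0 ≤ p e ∧ p e ≤ 1)
    {F : Finset α} (hF : F ⊆ E) : 0 ≤ wt E p F := by
  unfold wt
  refine mul_nonneg (prod_nonneg fun e he => (hp e (hF he)).1)
    (prod_nonneg fun e he => ?_)
  have := (hp e (mem_sdiff.1 he).1).2
  linarith

theorem sum_wt (E : Finset α) (p : α → ℝ) : ∑ F ∈ E.powerset, wt E p F = 1 := by
  unfold wt
  rw [← prod_add]
  simp

theorem Ex_const (E : Finset α) (p : α → ℝ) (a : ℝ) : Ex E p (fun _ => a) = a := by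
  rw [Ex_eq, ← sum_mul, sum_wt, one_mul]

theorem Ex_mono {E : Finset α} {p : α → ℝ} (hp : ∀ e ∈ E, 0 ≤ p e ∧ p e ≤ 1)
    {f g : Finset α → ℝ} (h : ∀ F, F ⊆ E → f F ≤ g F) : Ex E p f ≤ Ex E p g := by
  rw [Ex_eq, Ex_eq]
  refine sum_le_sum fun F hF => ?_
  rw [mem_powerset] at hF
  exact mul_le_mul_of_nonneg_left (h F hF) (wt_nonneg hp hF)

theorem Ex_congr {E : Finset α} {p : α → ℝ} {f g : Finset α → ℝ}
    (h : ∀ F, F ⊆ E → f F = g F) : Ex E p f = Ex E p g := by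
  rw [Ex_eq, Ex_eq]
  exact sum_congr rfl fun F hF => by rw [h F (mem_powerset.1 hF)]

theorem Ex_add (E : Finset α) (p : α → ℝ) (f g : Finset α → ℝ) :
    Ex E p (fun F => f F + g F) = Ex E p f + Ex E p g := by
  rw [Ex_eq, Ex_eq, Ex_eq, ← sum_add_distrib]
  exact sum_congr rfl fun F _ => by ring

theorem Ex_mul_left (E : Finset α) (p : α → ℝ) (a : ℝ) (f : Finset α → ℝ) :
    Ex E p (fun F => a * f F) = a * Ex E p f := by
  rw [Ex_eq, Ex_eq, mul_sum]
  exact sum_congr rfl fun F _ => by ring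

theorem Ex_mul_right (E : Finset α) (p : α → ℝ) (a : ℝ) (f : Finset α → ℝ) :
    Ex E p (fun F => f F * a) = Ex E p f * a := by
  rw [Ex_eq, Ex_eq, sum_mul]
  exact sum_congr rfl fun F _ => by ring

theorem wt_union {E₁ E₂ : Finset α} (h : Disjoint E₁ E₂) (p : α → ℝ) {F₁ F₂ : Finset α}
    (h₁ : F₁ ⊆ E₁) (h₂ : F₂ ⊆ E₂) :
    wt (E₁ ∪ E₂) p (F₁ ∪ F₂) = wt E₁ p F₁ * wt E₂ p F₂ := by
  unfold wt
  have hd : Disjoint F₁ F₂ := disjoint_of_subset_left h₁ (disjoint_of_subset_right h₂ h)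
  have e1 : (E₁ ∪ E₂) \ (F₁ ∪ F₂) = (E₁ \ F₁) ∪ (E₂ \ F₂) := by
    ext x
    simp only [mem_sdiff, mem_union]
    constructor
    · rintro ⟨h | h, h'⟩
      · exact Or.inl ⟨h, fun h'' => h' (Or.inl h'')⟩
      · exact Or.inr ⟨h, fun h'' => h' (Or.inr h'')⟩
    · rintro (⟨h3, h4⟩ | ⟨h3, h4⟩)
      · exact ⟨Or.inl h3, fun h5 => h5.elim h4 fun h6 => disjoint_left.1 h h3 (h₂ h6)⟩
      · exact ⟨Or.inr h3, fun h5 => h5.elim (fun h6 => disjoint_left.1 h (h₁ h6) h3) h4⟩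
  have hd' : Disjoint (E₁ \ F₁) (E₂ \ F₂) :=
    disjoint_of_subset_left sdiff_subset (disjoint_of_subset_right sdiff_subset h)
  rw [e1, prod_union hd, prod_union hd']
  ring

/-- independence of disjoint parts -/
theorem Ex_union {E₁ E₂ : Finset α} (h : Disjoint E₁ E₂) (p : α → ℝ) (f : Finset α → ℝ) :
    Ex (E₁ ∪ E₂) p f = Ex E₁ p (fun F₁ => Ex E₂ p (fun F₂ => f (F₁ ∪ F₂))) := by
  rw [Ex_eq, Ex_eq]
  have e : ∀ F₁ ∈ E₁.powerset, wt E₁ p F₁ * Ex E₂ p (fun F₂ => f (F₁ ∪ F₂)) =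
      ∑ F₂ ∈ E₂.powerset, wt E₁ p F₁ * (wt E₂ p F₂ * f (F₁ ∪ F₂)) := fun F₁ _ => by
    rw [Ex_eq, mul_sum]
  rw [sum_congr rfl e, ← sum_product']
  symm
  refine sum_bij' (fun x _ => x.1 ∪ x.2) (fun F _ => (F ∩ E₁, F ∩ E₂)) ?_ ?_ ?_ ?_ ?_
  · rintro ⟨F₁, F₂⟩ hx
    rw [mem_product, mem_powerset, mem_powerset] at hx
    rw [mem_powerset]
    exact union_subset_union hx.1 hx.2
  · intro F _
    rw [mem_product, mem_powerset, mem_powerset]
    exact ⟨inter_subset_right, inter_subset_right⟩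
  · rintro ⟨F₁, F₂⟩ hx
    rw [mem_product, mem_powerset, mem_powerset] at hx
    simp only at hx ⊢
    ext x
    · simp only [mem_inter, mem_union]
      constructor
      · rintro ⟨h1 | h1, h2⟩
        · exact h1
        · exact absurd h2 (disjoint_right.1 h (hx.2 h1))
      · intro h1; exact ⟨Or.inl h1, hx.1 h1⟩
    · simp only [mem_inter, mem_union]
      constructor
      · rintro ⟨h1 | h1, h2⟩
        · exact absurd h2 (disjoint_left.1 h (hx.1 h1))
        · exact h1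
      · intro h1; exact ⟨Or.inr h1, hx.2 h1⟩
  · intro F hF
    rw [mem_powerset] at hF
    simp only
    rw [← inter_union_distrib_left, inter_eq_left.2 hF]
  · rintro ⟨F₁, F₂⟩ hx
    rw [mem_product, mem_powerset, mem_powerset] at hx
    simp only at hx ⊢
    rw [wt_union h p hx.1 hx.2]
    ring

theorem Ex_union' [D : DecidableEq α] {E₁ E₂ : Finset α} (h : Disjoint E₁ E₂) (p : α → ℝ)
    (f : Finset α → ℝ) :
    Ex (@Union.union _ (@Finset.instUnion α D) E₁ E₂) p f = Ex E₁ p (fun F₁ => Ex E₂ p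
      (fun F₂ => f (@Union.union _ (@Finset.instUnion α D) F₁ F₂))) := by
  have : D = fun a b => Classical.propDecidable _ := Subsingleton.elim _ _
  subst this
  exact Ex_union h p f

theorem Pr_eq {E : Finset α} {p : α → ℝ} {A : Finset α → Prop} {f : Finset α → ℝ}
    (h1 : ∀ F, F ⊆ E → A F → f F = 1) (h0 : ∀ F, F ⊆ E → ¬ A F → f F = 0) :
    Pr E p A = Ex E p f := by
  unfold Pr
  refine Ex_congr fun F hF => ?_
  by_cases h : A F
  · rw [if_pos h, h1 F hF h]
  · rw [if_neg h, h0 F hF h]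

theorem Pr_congr {E : Finset α} {p : α → ℝ} {A B : Finset α → Prop}
    (h : ∀ F, F ⊆ E → (A F ↔ B F)) : Pr E p A = Pr E p B := by
  unfold Pr
  refine Ex_congr fun F hF => ?_
  by_cases a : A F
  · rw [if_pos a, if_pos ((h F hF).1 a)]
  · rw [if_neg a, if_neg fun b => a ((h F hF).2 b)]

theorem Pr_le_one {E : Finset α} {p : α → ℝ} (hp : ∀ e ∈ E, 0 ≤ p e ∧ p e ≤ 1)
    (A : Finset α → Prop) : Pr E p A ≤ 1 := by
  rw [← Ex_const E p 1]
  refine Ex_mono hp fun F _ => ?_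
  split_ifs <;> norm_num

theorem Pr_mono {E : Finset α} {p : α → ℝ} (hp : ∀ e ∈ E, 0 ≤ p e ∧ p e ≤ 1)
    {A B : Finset α → Prop} (h : ∀ F, F ⊆ E → A F → B F) : Pr E p A ≤ Pr E p B := by
  refine Ex_mono hp fun F hF => ?_
  by_cases a : A F
  · rw [if_pos a, if_pos (h F hF a)]
  · rw [if_neg a]; split_ifs <;> norm_num

/-- the probability of a nonempty subset -/
theorem Pr_nonempty (E : Finset α) (p : α → ℝ) :
    Pr E p (fun F => F.Nonempty) = 1 - ∏ e ∈ E, (1 - p e) := by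
  rw [Pr_eq (f := fun F => if F.Nonempty then (1:ℝ) else 0) (fun F _ h => if_pos h)
    (fun F _ h => if_neg h)]
  have e1 : Ex E p (fun F => if F.Nonempty then (1:ℝ) else 0) =
      Ex E p (fun _ => 1) + Ex E p (fun F => if F = ∅ then (-1:ℝ) else 0) := by
    rw [← Ex_add]
    refine Ex_congr fun F _ => ?_
    rcases eq_or_ne F ∅ with h | h
    · simp [h]
    · simp [h, nonempty_iff_ne_empty]
  rw [e1, Ex_const]
  have e2 : Ex E p (fun F => if F = ∅ then (-1:ℝ) else 0) = -∏ e ∈ E, (1 - p e) := by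
    rw [Ex_eq, sum_eq_single ∅]
    · simp [wt]
    · intro F _ hF; simp [hF]
    · intro h; exact absurd (empty_mem_powerset E) h
  rw [e2]; ring

theorem Pr_hit {ι : Type} (I : Finset ι) (E : ι → Finset α)
    (hd : ∀ i j, i ≠ j → Disjoint (E i) (E j)) (p : α → ℝ) :
    Pr (I.biUnion E) p (fun F => ∀ i ∈ I, (F ∩ E i).Nonempty) =
      ∏ i ∈ I, (1 - ∏ e ∈ E i, (1 - p e)) := by
  induction I using Finset.induction_on with
  | empty => simp [Pr, Ex_const]
  | insert j I hj ih =>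
    rw [biUnion_insert, prod_insert hj, ← ih, ← Pr_nonempty]
    have hdj : Disjoint (E j) (I.biUnion E) := by
      rw [disjoint_biUnion_right]
      intro i hi
      exact hd j i fun h => hj (h ▸ hi)
    unfold Pr
    rw [Ex_union' hdj, ← Ex_mul_right]
    refine Ex_congr fun F₁ h₁ => ?_
    rw [← Ex_mul_left]
    refine Ex_congr fun F₂ h₂ => ?_
    have k1 : (F₁ ∪ F₂) ∩ E j = F₁ := by
      ext x
      simp only [mem_inter, mem_union]
      constructor
      · rintro ⟨h | h, h'⟩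
        · exact h
        · exact absurd (h₂ h) (disjoint_left.1 hdj h')
      · intro h; exact ⟨Or.inl h, h₁ h⟩
    have k2 : ∀ i ∈ I, (F₁ ∪ F₂) ∩ E i = F₂ ∩ E i := by
      intro i hi
      ext x
      simp only [mem_inter, mem_union]
      constructor
      · rintro ⟨h | h, h'⟩
        · exact absurd h' (disjoint_left.1 (hd j i fun h => hj (h ▸ hi)) (h₁ h))
        · exact ⟨h, h'⟩
      · rintro ⟨h, h'⟩; exact ⟨Or.inr h, h'⟩
    have k3 : (∀ i ∈ insert j I, ((F₁ ∪ F₂) ∩ E i).Nonempty) ↔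
        F₁.Nonempty ∧ ∀ i ∈ I, (F₂ ∩ E i).Nonempty := by
      constructor
      · intro h
        refine ⟨?_, fun i hi => ?_⟩
        · have := h j (mem_insert_self _ _)
          rwa [k1] at this
        · have := h i (mem_insert_of_mem hi)
          rwa [k2 i hi] at this
      · rintro ⟨h, h'⟩ i hi
        rcases mem_insert.1 hi with e | e
        · rw [e, k1]; exact h
        · rw [k2 i e]; exact h' i e
    by_cases a1 : F₁.Nonempty
    · by_cases a2 : ∀ i ∈ I, (F₂ ∩ E i).Nonempty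
      · rw [if_pos (k3.2 ⟨a1, a2⟩), if_pos a1, if_pos a2]; norm_num
      · rw [if_neg (fun h => a2 (k3.1 h).2), if_neg a2]; simp
    · rw [if_neg (fun h => a1 (k3.1 h).1), if_neg a1]; simp

theorem Pr_hit' {ι : Type} (I : Finset ι) (E : ι → Finset α)
    (hd : ∀ i j, i ≠ j → Disjoint (E i) (E j)) (p : α → ℝ) :
    Pr (I.biUnion E) p (fun F => ∀ i ∈ I, ∃ e ∈ E i, e ∈ F) =
      ∏ i ∈ I, (1 - ∏ e ∈ E i, (1 - p e)) := by
  rw [← Pr_hit I E hd p]
  refine Pr_congr fun F _ => ?_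
  refine forall₂_congr fun i _ => ?_
  constructor
  · rintro ⟨e, h1, h2⟩; exact ⟨e, mem_inter.2 ⟨h2, h1⟩⟩
  · rintro ⟨e, h⟩; exact ⟨e, (mem_inter.1 h).2, (mem_inter.1 h).1⟩

end basics

/-! ## The greedy colouring -/

theorem one_sub_ge {ε p : ℝ} (h0 : 0 < ε) (h1 : ε ≤ 1 / 2) (hp : 0 ≤ p) (hp' : p ≤ 1 - ε) :
    Real.exp (-(2 * Real.log (1 / ε) * p)) ≤ 1 - p := by
  have hL : 0 ≤ Real.log (1 / ε) := Real.log_nonneg (by
    rw [le_div_iff₀ h0]; linarith)
  -- concavity of `log` between `ε` and `1`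
  have hlog : Real.log (1 / ε) = - Real.log ε := by rw [one_div, Real.log_inv]
  have h1e : 0 < 1 - ε := by linarith
  obtain ⟨t, ht⟩ : ∃ t, t = p / (1 - ε) := ⟨_, rfl⟩
  have t0 : 0 ≤ t := by rw [ht]; positivity
  have t1 : t ≤ 1 := by rw [ht, div_le_one h1e]; exact hp'
  have hpt : p = t * (1 - ε) := by rw [ht]; field_simp
  have conc := strictConcaveOn_log_Ioi.concaveOn.2 (Set.mem_Ioi.2 h0)
    (Set.mem_Ioi.2 (one_pos : (0:ℝ) < 1)) t0 (by linarith : 0 ≤ 1 - t) (by ring)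
  simp only [smul_eq_mul, Real.log_one, mul_zero, add_zero, mul_one] at conc
  have e1 : t * ε + (1 - t) = 1 - p := by rw [hpt]; ring
  rw [e1] at conc
  have pos : 0 < 1 - p := by linarith
  rw [← Real.le_log_iff_exp_le pos]
  have t2 : t ≤ 2 * p := by
    rw [hpt]; nlinarith
  have : t * Real.log (1 / ε) ≤ 2 * p * Real.log (1 / ε) := mul_le_mul_of_nonneg_right t2 hL
  rw [hlog] at this ⊢
  nlinarith

/-- Jensen's inequality for `exp (-w)` -/
theorem sum_exp_ge {k : ℕ} (hk : 1 ≤ k) (w : Fin k → ℝ) {W : ℝ} (hW : ∑ i, w i ≤ W) :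
    (k : ℝ) * Real.exp (-(W / k)) ≤ ∑ i, Real.exp (-(w i)) := by
  have hk0 : (0:ℝ) < k := by exact_mod_cast hk
  -- tangent line at `-(W/k)`
  have h1 : ∀ i, Real.exp (-(W / k)) * (1 + (-(w i) + W / k)) ≤ Real.exp (-(w i)) := by
    intro i
    have := Real.add_one_le_exp (-(w i) + W / k)
    calc Real.exp (-(W / k)) * (1 + (-(w i) + W / k)) ≤
        Real.exp (-(W / k)) * Real.exp (-(w i) + W / k) :=
          mul_le_mul_of_nonneg_left (by linarith) (Real.exp_pos _).le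
      _ = Real.exp (-(w i)) := by rw [← Real.exp_add]; ring_nf
  have h2 : ∑ i, Real.exp (-(W / k)) * (1 + (-(w i) + W / k)) ≤ ∑ i, Real.exp (-(w i)) :=
    sum_le_sum fun i _ => h1 i
  refine le_trans ?_ h2
  rw [← mul_sum]
  have h3 : ∑ i : Fin k, (1 + (-(w i) + W / k)) = k + (W - ∑ i, w i) := by
    rw [sum_add_distrib, sum_add_distrib, sum_neg_distrib]
    simp only [sum_const, card_univ, Fintype.card_fin, nsmul_eq_mul, mul_one]
    field_simp
    ring
  rw [h3]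
  have := Real.exp_pos (-(W / k))
  nlinarith

section main

variable {V : Type} [Fintype V]

theorem mem_prs {S : Finset V} {e : Sym2 V} :
    e ∈ prs S ↔ (∃ a ∈ S, ∃ b ∈ S, s(a, b) = e) ∧ ¬ e.IsDiag := by
  unfold prs
  simp only [mem_filter, mem_image, mem_product, Prod.exists]
  constructor
  · rintro ⟨⟨a, b, ⟨h1, h2⟩, h3⟩, h4⟩
    exact ⟨⟨a, h1, b, h2, h3⟩, h4⟩
  · rintro ⟨⟨a, h1, b, h2, h3⟩, h4⟩
    exact ⟨⟨a, b, ⟨h1, h2⟩, h3⟩, h4⟩

theorem prs_insert {S : Finset V} {v : V} (hv : v ∉ S) :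
    prs (insert v S) = prs S ∪ S.image (fun u => s(v, u)) := by
  ext e
  rw [mem_union, mem_prs, mem_prs, mem_image]
  constructor
  · rintro ⟨⟨a, ha, b, hb, rfl⟩, hdi⟩
    rcases mem_insert.1 ha with h | h <;> rcases mem_insert.1 hb with h' | h'
    · exfalso; apply hdi; rw [h, h']; simp
    · right; exact ⟨b, h', by rw [h]⟩
    · right; exact ⟨a, h, by rw [h', Sym2.eq_swap]⟩
    · left; exact ⟨⟨a, h, b, h', rfl⟩, hdi⟩
  · rintro (⟨⟨a, ha, b, hb, rfl⟩, hdi⟩ | ⟨u, hu, rfl⟩)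
    · exact ⟨⟨a, mem_insert_of_mem ha, b, mem_insert_of_mem hb, rfl⟩, hdi⟩
    · refine ⟨⟨v, mem_insert_self _ _, u, mem_insert_of_mem hu, rfl⟩, ?_⟩
      rw [Sym2.mk_isDiag_iff]
      rintro rfl
      exact hv hu

theorem not_mem_of_prs {S : Finset V} {v u : V} (hv : v ∉ S) : s(v, u) ∉ prs S := by
  rw [mem_prs]
  rintro ⟨⟨a, ha, b, hb, h⟩, -⟩
  rw [Sym2.eq_iff] at h
  rcases h with ⟨h, -⟩ | ⟨-, h⟩
  · exact hv (h ▸ ha)
  · exact hv (h ▸ hb)

theorem disj_star {S : Finset V} {v : V} (hv : v ∉ S) :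
    Disjoint (prs S) (S.image (fun u => s(v, u))) := by
  rw [disjoint_right]
  intro e he
  obtain ⟨u, _, rfl⟩ := mem_image.1 he
  exact not_mem_of_prs hv

omit [Fintype V] in
theorem star_inj (v : V) : Function.Injective (fun u : V => s(v, u)) := by
  intro a b h
  simp only [Sym2.eq_iff] at h
  rcases h with ⟨-, h⟩ | ⟨h, h'⟩
  · exact h
  · rw [h', h]

/-- one step of the greedy colouring -/
theorem step_col {S : Finset V} {v : V} (hv : v ∉ S) {k : ℕ} {F₁ F₂ : Finset (Sym2 V)}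
    (h₁ : F₁ ⊆ prs S) (h₂ : F₂ ⊆ S.image (fun u => s(v, u))) {c : V → Fin k}
    (hc : ∀ u ∈ S, ∀ w ∈ S, u ≠ w → s(u, w) ∈ F₁ → c u ≠ c w) {i : Fin k}
    (hi : ∀ u ∈ S, c u = i → s(v, u) ∉ F₂) : ColIn (F₁ ∪ F₂) (insert v S) k := by
  refine ⟨Function.update c v i, ?_⟩
  intro u hu w hw huw he
  rw [mem_union] at he
  have nS : ∀ x ∈ S, x ≠ v := fun x hx h => hv (h ▸ hx)
  rcases mem_insert.1 hu with h | h <;> rcases mem_insert.1 hw with h' | h'
  · exact absurd (h.trans h'.symm) huw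
  · subst h
    rw [Function.update_self, Function.update_of_ne (nS w h')]
    rcases he with he | he
    · exact absurd (h₁ he) (not_mem_of_prs hv)
    · intro e
      exact hi w h' e.symm he
  · subst h'
    rw [Function.update_self, Function.update_of_ne (nS u h)]
    rw [Sym2.eq_swap] at he
    rcases he with he | he
    · exact absurd (h₁ he) (not_mem_of_prs hv)
    · intro e
      exact hi u h e he
  · rw [Function.update_of_ne (nS u h), Function.update_of_ne (nS w h')]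
    rcases he with he | he
    · exact hc u h w h' huw he
    · obtain ⟨x, _, hx⟩ := mem_image.1 (h₂ he)
      simp only [Sym2.eq_iff] at hx
      rcases hx with ⟨hx, -⟩ | ⟨hx, -⟩
      · exact absurd hx.symm (nS u h)
      · exact absurd hx.symm (nS w h')

omit [Fintype V] in
theorem star_prob {p : Sym2 V → ℝ} {ε κ : ℝ} {k : ℕ} {S : Finset V} {v : V} (h0 : 0 < ε)
    (h1 : ε ≤ 1 / 2) (hp : ∀ e, 0 ≤ p e ∧ p e ≤ 1 - ε) (hk : 1 ≤ k) (hv : v ∉ S)
    (hw : wd p S v ≤ κ) (c : V → Fin k) :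
    Pr (S.image (fun u => s(v, u))) p (fun F => ∀ i : Fin k, ∃ u ∈ S, c u = i ∧ s(v, u) ∈ F) ≤
      Real.exp (-(k * Real.exp (-(2 * Real.log (1 / ε) * κ / k)))) := by
  obtain ⟨E, hE⟩ : ∃ E : Fin k → Finset (Sym2 V),
      E = fun i => (S.filter (fun u => c u = i)).image (fun u => s(v, u)) := ⟨_, rfl⟩
  have hd : ∀ i j, i ≠ j → Disjoint (E i) (E j) := by
    intro i j hij
    rw [hE, disjoint_left]
    intro e he he'
    simp only [mem_image, mem_filter] at he he'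
    obtain ⟨a, ⟨_, ha⟩, rfl⟩ := he
    obtain ⟨b, ⟨_, hb⟩, hab⟩ := he'
    have := star_inj v hab
    apply hij
    rw [← ha, ← hb, this]
  obtain ⟨T, hT⟩ : ∃ T : Finset (Sym2 V), T = S.image (fun u => s(v, u)) := ⟨_, rfl⟩
  have hU : ∀ D : DecidableEq (Sym2 V), @Finset.biUnion _ _ D (univ : Finset (Fin k)) E = T := by
    intro D
    rw [hT]
    ext e
    simp only [hE, mem_biUnion, mem_univ, true_and, mem_image, mem_filter]
    constructor
    · rintro ⟨i, u, ⟨h, _⟩, rfl⟩; exact ⟨u, h, rfl⟩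
    · rintro ⟨u, h, rfl⟩; exact ⟨c u, u, ⟨h, rfl⟩, rfl⟩
  have key := Pr_hit' (univ : Finset (Fin k)) E hd p
  rw [hU, hT] at key
  refine le_trans (le_of_eq (Eq.trans (Pr_congr fun F _ => ?_) key)) ?_
  · constructor
    · intro h i _
      obtain ⟨u, hu, hc, hF⟩ := h i
      exact ⟨s(v, u), by
        rw [hE]; exact mem_image.2 ⟨u, mem_filter.2 ⟨hu, hc⟩, rfl⟩, hF⟩
    · intro h i
      obtain ⟨e, he2, he1⟩ := h i (mem_univ _)
      rw [hE] at he2
      obtain ⟨u, hu, rfl⟩ := mem_image.1 he2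
      rw [mem_filter] at hu
      exact ⟨u, hu.1, hu.2, he1⟩
  obtain ⟨L, hL⟩ : ∃ L, L = 2 * Real.log (1 / ε) := ⟨_, rfl⟩
  have hL0 : 0 ≤ L := by
    rw [hL]
    have : 0 ≤ Real.log (1 / ε) := Real.log_nonneg (by rw [le_div_iff₀ h0]; linarith)
    linarith
  obtain ⟨w, hwd⟩ : ∃ w : Fin k → ℝ, w = fun i => L * ∑ e ∈ E i, p e := ⟨_, rfl⟩
  have hEi : ∀ i, Real.exp (-(w i)) ≤ ∏ e ∈ E i, (1 - p e) := by
    intro i
    rw [hwd]
    simp only
    rw [mul_sum, ← sum_neg_distrib, Real.exp_sum]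
    refine prod_le_prod (fun e _ => (Real.exp_pos _).le) fun e _ => ?_
    rw [hL]
    exact one_sub_ge h0 h1 (hp e).1 (hp e).2
  have hsum : ∑ i, w i ≤ L * κ := by
    rw [hwd]
    simp only
    rw [← mul_sum, ← sum_biUnion (fun i _ j _ h => hd i j h), hU, hT,
      sum_image (fun a _ b _ h => star_inj v h)]
    refine mul_le_mul_of_nonneg_left ?_ hL0
    unfold wd at hw
    rwa [erase_eq_of_notMem hv] at hw
  have hJ := sum_exp_ge hk w hsum
  have hprod : ∏ i : Fin k, (1 - ∏ e ∈ E i, (1 - p e)) ≤ Real.exp (-∑ i, Real.exp (-(w i))) := by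
    rw [← sum_neg_distrib, Real.exp_sum]
    refine prod_le_prod (fun i _ => ?_) fun i _ => ?_
    · have : ∏ e ∈ E i, (1 - p e) ≤ 1 := by
        refine prod_le_one (fun e _ => ?_) fun e _ => ?_
        · have := (hp e).2; linarith
        · have := (hp e).1; linarith
      linarith
    · have h2 := Real.add_one_le_exp (-Real.exp (-(w i)))
      have h3 := hEi i
      linarith
  refine le_trans hprod (Real.exp_le_exp.2 ?_)
  rw [← hL]
  linarith

theorem greedy {p : Sym2 V → ℝ} {ε κ : ℝ} {k : ℕ} (h0 : 0 < ε) (h1 : ε ≤ 1 / 2)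
    (hp : ∀ e, 0 ≤ p e ∧ p e ≤ 1 - ε) (hk : 1 ≤ k) {S : Finset V} (hS : Deg p κ S) :
    Pr (prs S) p (fun F => ¬ ColIn F S k) ≤
      S.card * Real.exp (-(k * Real.exp (-(2 * Real.log (1 / ε) * κ / k)))) := by
  have hp1 : ∀ e, 0 ≤ p e ∧ p e ≤ 1 := fun e => ⟨(hp e).1, by linarith [(hp e).2]⟩
  obtain ⟨q, hq⟩ : ∃ q, q = Real.exp (-(k * Real.exp (-(2 * Real.log (1 / ε) * κ / k)))) :=
    ⟨_, rfl⟩
  have hq0 : 0 ≤ q := by rw [hq]; exact (Real.exp_pos _).le
  rw [← hq]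
  induction hS with
  | empty =>
    have : Pr (prs (∅ : Finset V)) p (fun F => ¬ ColIn F ∅ k) = Ex (prs (∅ : Finset V)) p
        (fun _ => 0) := by
      unfold Pr
      refine Ex_congr fun F _ => ?_
      rw [if_neg]
      intro h
      exact h ⟨fun _ => ⟨0, hk⟩, by simp⟩
    rw [this, Ex_const]
    simp
  | insert v S hv _ hw ih =>
    rw [prs_insert hv]
    have step : Pr (prs S ∪ S.image (fun u => s(v, u))) p (fun F => ¬ ColIn F (insert v S) k) ≤
        Ex (prs S) p (fun F₁ => (if ¬ ColIn F₁ S k then (1:ℝ) else 0) + q) := by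
      unfold Pr
      rw [Ex_union' (disj_star hv)]
      refine Ex_mono (fun e _ => hp1 e) fun F₁ h₁ => ?_
      by_cases hcol : ColIn F₁ S k
      · rw [if_neg (fun h => h hcol), zero_add]
        obtain ⟨c, hc⟩ := hcol
        have := star_prob h0 h1 hp hk hv hw c
        rw [← hq] at this
        refine le_trans ?_ this
        unfold Pr
        refine Ex_mono (fun e _ => hp1 e) fun F₂ h₂ => ?_
        by_cases hh : ∀ i : Fin k, ∃ u ∈ S, c u = i ∧ s(v, u) ∈ F₂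
        · rw [if_pos hh]
          split_ifs <;> norm_num
        · rw [if_neg hh]
          push Not at hh
          obtain ⟨i, hi⟩ := hh
          rw [if_neg]
          intro h
          exact h (step_col hv h₁ h₂ hc hi)
      · rw [if_pos hcol]
        refine le_trans (Ex_mono (g := fun _ => 1) (fun e _ => hp1 e) fun F₂ _ => ?_) ?_
        · split_ifs <;> norm_num
        · rw [Ex_const]; linarith
    refine le_trans step ?_
    rw [Ex_add, Ex_const, card_insert_of_notMem hv]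
    push_cast
    have : Pr (prs S) p (fun F => ¬ ColIn F S k) =
      Ex (prs S) p (fun F₁ => if ¬ ColIn F₁ S k then (1:ℝ) else 0) :=
      Pr_eq (fun F _ h => if_pos h) (fun F _ h => if_neg h)
    rw [← this]
    linarith

end main

theorem t_GREEDY : S_GREEDY := by
  intro V _ p ε κ k S h0 h1 hp hk _ hS
  exact greedy h0 h1 hp hk hS

end Pool.Agent.J4H10.HR
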