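import Pool.Agent.J4H23.HR.Stm

/-! Project HR: KCONN (highly connected dense subgraphs, Mader). -/

set_option autoImplicit false

namespace Pool.Agent.J4H10.HR

open Finset Classical Pool.Agent.J4H23.HR

variable {V : Type} [Fintype V] (G : SimpleGraph V)

/-- twice the number of edges inside `S` -/
noncomputable def ee (S : Finset V) : ℕ := ∑ v ∈ S, dg G S v

theorem dg_mono {S T : Finset V} (h : S ⊆ T) (v : V) : dg G S v ≤ dg G T v :=
  card_le_card (filter_subset_filter _ h)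

theorem dg_lt {S : Finset V} {v : V} (hv : v ∈ S) : dg G S v < S.card := by
  apply card_lt_card
  refine ⟨filter_subset _ _, fun h => ?_⟩
  have := h hv
  simp at this

theorem ee_le (S : Finset V) : ee G S ≤ S.card * (S.card - 1) := by
  unfold ee
  calc ∑ v ∈ S, dg G S v ≤ ∑ v ∈ S, (S.card - 1) :=
        sum_le_sum fun v hv => Nat.le_sub_one_of_lt (dg_lt G hv)
    _ = S.card * (S.card - 1) := by rw [sum_const, smul_eq_mul]

theorem ee_erase {S : Finset V} {v : V} (hv : v ∈ S) :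
    ee G S = ee G (S.erase v) + 2 * dg G S v := by
  unfold ee
  rw [← add_sum_erase S _ hv]
  have h1 : ∀ u ∈ S.erase v, dg G S u = dg G (S.erase v) u + (if G.Adj v u then 1 else 0) := by
    intro u hu
    unfold dg
    rw [filter_erase]
    split_ifs with h
    · have : v ∈ S.filter (fun y => G.Adj u y) := mem_filter.2 ⟨hv, h.symm⟩
      rw [card_erase_of_mem this]
      have : 0 < (S.filter (fun y => G.Adj u y)).card := card_pos.2 ⟨_, this⟩
      omega
    · have : v ∉ S.filter (fun y => G.Adj u y) := fun h' => h (mem_filter.1 h').2.symm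
      rw [erase_eq_of_notMem this]; rfl
  rw [sum_congr rfl h1, sum_add_distrib, ← card_filter]
  have h2 : ((S.erase v).filter (fun u => G.Adj v u)).card = dg G S v := by
    unfold dg
    rw [filter_erase, erase_eq_of_notMem]
    intro h; simp at h
  rw [h2]; ring

theorem ee_sep {S Z P Q : Finset V} (hd : Disjoint P Q) (hu : P ∪ Q = S \ Z)
    (hno : ∀ x ∈ P, ∀ y ∈ Q, ¬ G.Adj x y) :
    ee G S ≤ ee G (P ∪ (S ∩ Z)) + ee G (Q ∪ (S ∩ Z)) := by
  have hS : S = (P ∪ Q) ∪ (S ∩ Z) := by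
    rw [hu]; ext x; simp; tauto
  have hPS : P ⊆ S := fun x hx => (mem_sdiff.1 (hu ▸ mem_union_left Q hx)).1
  have hQS : Q ⊆ S := fun x hx => (mem_sdiff.1 (hu ▸ mem_union_right P hx)).1
  have hPZ : Disjoint P (S ∩ Z) := by
    rw [disjoint_left]; intro x hx h
    exact (mem_sdiff.1 (hu ▸ mem_union_left Q hx : x ∈ S \ Z)).2 (mem_inter.1 h).2
  have hQZ : Disjoint Q (S ∩ Z) := by
    rw [disjoint_left]; intro x hx h
    exact (mem_sdiff.1 (hu ▸ mem_union_right P hx : x ∈ S \ Z)).2 (mem_inter.1 h).2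
  have hmem : ∀ y ∈ S, y ∈ P ∨ y ∈ Q ∨ y ∈ S ∩ Z := by
    intro y hy
    rw [hS, mem_union, mem_union] at hy
    tauto
  have e1 : ee G S = (∑ v ∈ P, dg G S v + ∑ v ∈ Q, dg G S v) + ∑ v ∈ S ∩ Z, dg G S v := by
    unfold ee
    conv_lhs => rw [hS]
    rw [sum_union (disjoint_union_left.2 ⟨hPZ, hQZ⟩), sum_union hd, ← hS]
  have e2 : ee G (P ∪ (S ∩ Z)) = ∑ v ∈ P, dg G (P ∪ (S ∩ Z)) v +
      ∑ v ∈ S ∩ Z, dg G (P ∪ (S ∩ Z)) v := by
    unfold ee; rw [sum_union hPZ]
  have e3 : ee G (Q ∪ (S ∩ Z)) = ∑ v ∈ Q, dg G (Q ∪ (S ∩ Z)) v +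
      ∑ v ∈ S ∩ Z, dg G (Q ∪ (S ∩ Z)) v := by
    unfold ee; rw [sum_union hQZ]
  have i1 : ∑ v ∈ P, dg G S v ≤ ∑ v ∈ P, dg G (P ∪ (S ∩ Z)) v := by
    refine sum_le_sum fun v hv => card_le_card fun y hy => ?_
    rw [mem_filter] at hy ⊢
    refine ⟨?_, hy.2⟩
    rcases hmem y hy.1 with h | h | h
    · exact mem_union_left _ h
    · exact absurd hy.2 (hno v hv y h)
    · exact mem_union_right _ h
  have i2 : ∑ v ∈ Q, dg G S v ≤ ∑ v ∈ Q, dg G (Q ∪ (S ∩ Z)) v := by
    refine sum_le_sum fun v hv => card_le_card fun y hy => ?_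
    rw [mem_filter] at hy ⊢
    refine ⟨?_, hy.2⟩
    rcases hmem y hy.1 with h | h | h
    · exact absurd hy.2.symm (hno y h v hv)
    · exact mem_union_left _ h
    · exact mem_union_right _ h
  have i3 : ∑ v ∈ S ∩ Z, dg G S v ≤ ∑ v ∈ S ∩ Z, dg G (P ∪ (S ∩ Z)) v +
      ∑ v ∈ S ∩ Z, dg G (Q ∪ (S ∩ Z)) v := by
    rw [← sum_add_distrib]
    refine sum_le_sum fun v hv => ?_
    unfold dg
    refine le_trans (card_le_card ?_) (card_union_le _ _)
    intro y hy
    rw [mem_filter] at hy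
    rw [mem_union, mem_filter, mem_filter]
    rcases hmem y hy.1 with h | h | h
    · exact Or.inl ⟨mem_union_left _ h, hy.2⟩
    · exact Or.inr ⟨mem_union_left _ h, hy.2⟩
    · exact Or.inl ⟨mem_union_right _ h, hy.2⟩
  omega

theorem t_KCONN : S_KCONN := by
  intro V _ G K hK hcard hpos hdeg
  obtain ⟨k, hk⟩ : ∃ k, k = K / 4 := ⟨_, rfl⟩
  have hk1 : 1 ≤ k := by omega
  have hk4 : 4 * k ≤ K := by omega
  -- the candidates
  obtain ⟨C, hC⟩ : ∃ C : Finset (Finset V), C = univ.filter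
    (fun S : Finset V => 2 * k ≤ S.card ∧ K * S.card < ee G S + K * k) := ⟨_, rfl⟩
  have hun : (univ : Finset V) ∈ C := by
    rw [hC, mem_filter]
    refine ⟨mem_univ _, ?_, ?_⟩
    · obtain ⟨v⟩ := Fintype.card_pos_iff.1 hpos
      have h1 := dg_lt G (mem_univ v)
      have h2 := hdeg v
      omega
    · have h1 : K * (univ : Finset V).card ≤ ee G univ := by
        unfold ee
        calc K * (univ : Finset V).card = ∑ v ∈ (univ : Finset V), K := by
              rw [sum_const, smul_eq_mul, mul_comm]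
          _ ≤ _ := sum_le_sum fun v _ => hdeg v
      have : 0 < K * k := by positivity
      omega
  obtain ⟨S, hS, hmin⟩ := exists_min_image C (fun S => S.card) ⟨_, hun⟩
  rw [hC, mem_filter] at hS
  obtain ⟨-, h2k, hst⟩ := hS
  have hmin' : ∀ T : Finset V, 2 * k ≤ T.card → T.card < S.card → ee G T + K * k ≤ K * T.card := by
    intro T h1 h2
    by_contra hcon
    push Not at hcon
    have := hmin T (by rw [hC, mem_filter]; exact ⟨mem_univ _, h1, hcon⟩)
    omega
  have hgt : 2 * k < S.card := by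
    rcases Nat.lt_or_ge (2 * k) S.card with h | h
    · exact h
    · exfalso
      have h3 : S.card = 2 * k := le_antisymm h h2k
      have h4 := ee_le G S
      rw [h3] at h4 hst
      have h5 : 2 * k * (2 * k - 1) ≤ 2 * k * (2 * k) := Nat.mul_le_mul_left _ (by omega)
      have h6 : 4 * k * k ≤ K * k := Nat.mul_le_mul_right _ hk4
      nlinarith
  have hdS : ∀ v ∈ S, K < 2 * dg G S v := by
    intro v hv
    by_contra hcon
    push Not at hcon
    have h1 : (S.erase v).card = S.card - 1 := card_erase_of_mem hv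
    have h2 := hmin' (S.erase v) (by omega) (by omega)
    have h3 := ee_erase G hv
    have h4 : K * S.card = K * (S.erase v).card + K := by
      rw [h1]
      obtain ⟨m, hm⟩ : ∃ m, S.card = m + 1 := ⟨S.card - 1, by omega⟩
      rw [hm]; simp; ring
    omega
  refine ⟨S, card_pos.1 (by omega), le_trans (card_le_univ S) hcard, hdS, ?_⟩
  intro Z P Q hZ hP hQ hd hu
  by_contra hcon
  push Not at hcon
  have hPS : P ⊆ S := fun x hx => (mem_sdiff.1 (hu ▸ mem_union_left Q hx)).1
  have hQS : Q ⊆ S := fun x hx => (mem_sdiff.1 (hu ▸ mem_union_right P hx)).1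
  have hPZ : Disjoint P (S ∩ Z) := by
    rw [disjoint_left]; intro x hx h
    exact (mem_sdiff.1 (hu ▸ mem_union_left Q hx : x ∈ S \ Z)).2 (mem_inter.1 h).2
  have hQZ : Disjoint Q (S ∩ Z) := by
    rw [disjoint_left]; intro x hx h
    exact (mem_sdiff.1 (hu ▸ mem_union_right P hx : x ∈ S \ Z)).2 (mem_inter.1 h).2
  have hS : S = (P ∪ Q) ∪ (S ∩ Z) := by
    rw [hu]; ext x; simp; tauto
  have hmem : ∀ y ∈ S, y ∈ P ∨ y ∈ Q ∨ y ∈ S ∩ Z := by
    intro y hy
    rw [hS, mem_union, mem_union] at hy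
    tauto
  have c0 : S.card = P.card + Q.card + (S ∩ Z).card := by
    conv_lhs => rw [hS]
    rw [card_union_of_disjoint (disjoint_union_left.2 ⟨hPZ, hQZ⟩), card_union_of_disjoint hd]
  have c1 : (P ∪ (S ∩ Z)).card = P.card + (S ∩ Z).card := card_union_of_disjoint hPZ
  have c2 : (Q ∪ (S ∩ Z)).card = Q.card + (S ∩ Z).card := card_union_of_disjoint hQZ
  have hp : 0 < P.card := card_pos.2 hP
  have hq : 0 < Q.card := card_pos.2 hQ
  have g1 : 2 * k ≤ (P ∪ (S ∩ Z)).card := by
    obtain ⟨v, hv⟩ := hP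
    have h1 := hdS v (hPS hv)
    have h2 : dg G S v ≤ dg G (P ∪ (S ∩ Z)) v := by
      refine card_le_card fun y hy => ?_
      rw [mem_filter] at hy ⊢
      refine ⟨?_, hy.2⟩
      rcases hmem y hy.1 with h | h | h
      · exact mem_union_left _ h
      · exact absurd hy.2 (hcon v hv y h)
      · exact mem_union_right _ h
    have h3 := dg_lt G (S := P ∪ (S ∩ Z)) (mem_union_left _ hv)
    omega
  have g2 : 2 * k ≤ (Q ∪ (S ∩ Z)).card := by
    obtain ⟨v, hv⟩ := hQ
    have h1 := hdS v (hQS hv)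
    have h2 : dg G S v ≤ dg G (Q ∪ (S ∩ Z)) v := by
      refine card_le_card fun y hy => ?_
      rw [mem_filter] at hy ⊢
      refine ⟨?_, hy.2⟩
      rcases hmem y hy.1 with h | h | h
      · exact absurd hy.2.symm (hcon y h v hv)
      · exact mem_union_left _ h
      · exact mem_union_right _ h
    have h3 := dg_lt G (S := Q ∪ (S ∩ Z)) (mem_union_left _ hv)
    omega
  have m1 := hmin' _ g1 (by omega)
  have m2 := hmin' _ g2 (by omega)
  have m3 := ee_sep G hd hu hcon
  have hz : (S ∩ Z).card ≤ k := by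
    rw [hk]; exact le_trans (card_le_card inter_subset_right) hZ
  have hz' : K * (S ∩ Z).card ≤ K * k := Nat.mul_le_mul_left _ hz
  rw [c1] at m1
  rw [c2] at m2
  rw [c0] at hst
  have : K * (P.card + (S ∩ Z).card) + K * (Q.card + (S ∩ Z).card) =
    K * (P.card + Q.card + (S ∩ Z).card) + K * (S ∩ Z).card := by ring
  omega

end Pool.Agent.J4H10.HR
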